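import Pool.Agent.Run7.h913.ST.Thm
import Pool.Agent.N110.Can
import Pool.Agent.R887.Exc

/-!
The structure of the group of the birational self-maps of a minimal variety whose canonical divisor
has numerical dimension at least `n - 1`: up to finite index it is free abelian, and the degree is
the square of the norm, as for the translations of an elliptic fibration. Otherwise the numerical
dimension is at most `n - 2`.
-/

set_option autoImplicit false

open FF Pool.Agent.W602.GT Pool.Agent.Y172 Pool.Agent.R887 Pool.Agent.N110 Run7.h528.NR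
open Run7.h913.ST
open scoped ENNReal

namespace Pool.Agent.Results.MP_5ff3c6_ag.MordellWeilStructure

/-- The numerical dimension and the Kodaira dimension of `K_X + Δ` are at most `n - 2`, and they are
equal if the Kodaira dimension is at least `n - 2`. -/
def CodimTwo {K : Type} [Field K] [Algebra ℂ K] {N : ℕ} (y : Fin (N + 1) → K) (n : ℕ)
    (Δ : Place ℂ K → ℚ) : Prop :=
  1 < n ∧ NumDimLt y n Δ (n - 1) ∧ ¬ KappaGe y n Δ (n - 1) ∧
    (KappaGe y n Δ (n - 2) → Abundant y n Δ)

/-- Let `X` be a normal projective variety of dimension `n ≥ 1`, with generic point `y`, and `Δ ≥ 0`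
a `ℚ`-divisor on `X`.

1. Let `(X, Δ)` be a terminal pair with `K_X + Δ` nef, for instance let `X` be a minimal variety and
`Δ = 0`. Let the vectors `c P` in `ℤ ^ ρ` be the numerical classes of the prime divisors `P` of `X`
(they exist by the theorem of Néron and Severi). Let `G` be any group of birational self-maps of `X`
which preserve `K_X + Δ` (this is no condition if `Δ = 0`: then `G` can be the group of all
birational self-maps of `X`). More generally, let `(X, Δ)` be arbitrary, and `G` a group of
isomorphisms in codimension one which preserve `K_X + Δ`. Then at least one of the following holds: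
* `n ≥ 2`, the numerical dimension and the Kodaira dimension of `K_X + Δ` are at most `n - 2`, and
  they are equal if the Kodaira dimension is at least `n - 2` (`CodimTwo`);
* `G` is of Mordell-Weil type: there are a normal subgroup `G₀` of finite index in `G`, a surjective
  homomorphism `Φ` from `G₀` onto `ℤ ^ r`, where `r = 0` or `r ≤ ρ - 2`, whose kernel acts trivially
  on the numerical classes of the divisors, and a constant `C` such that the degree `g^* H · H ^ (n - 1)`
  is at most `C (|Φ g| ^ 2 + 1)` and at least `|Φ g| ^ 2 / C`, for all `g` in `G₀`.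

So if the numerical dimension of `K_X + Δ` is at least `n - 1` then `G` looks like the group of an
elliptic fibration with its Néron-Tate height, as the abundance conjecture predicts.

2. Let `X` have canonical singularities and `Δ = 0`, and let `S` be a set of birational self-maps of
`X` of bounded degree; or let `(X, Δ)` be arbitrary and let the elements of the group generated by `S`
preserve `K_X + Δ`. If for every `C` there is a product of `l ≥ 1` elements of `S` and inverses of
elements of `S` with degree greater than `C l ^ 2` then `CodimTwo` holds. -/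
theorem result {K : Type} [Field K] [Algebra ℂ K] {N n : ℕ} {y : Fin (N + 1) → K}
    (hy : NormalModel y) (hn : Algebra.trdeg ℂ K = n) (hn0 : 0 < n) {Δ : Place ℂ K → ℚ}
    (hΔ : Effective y Δ) :
    (∀ (ρ : ℕ) (c : Place ℂ K → Fin ρ → ℤ), NumClasses y c → ∀ G : Subgroup (K ≃ₐ[ℂ] K),
      (TerminalPair y n Δ ∧ LogNef y n Δ ∧ (Δ = 0 ∨ ∀ g ∈ G, PullLe g y n Δ)) ∨
        (∀ g ∈ G, PseudoAut g y ∧ PullLe g y n Δ) →
      CodimTwo y n Δ ∨ MordellWeil y n c G) ∧
    ∀ (S : Set (K ≃ₐ[ℂ] K)) (D : ℕ), (∀ g ∈ S, mixedDegree g y n 1 ≤ D) →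
      (∀ g ∈ Subgroup.closure S, PullLe g y n Δ) ∨ (Δ = 0 ∧ Canonical y n) →
      (∀ C : ℕ, ∃ w : List (K ≃ₐ[ℂ] K), w ≠ [] ∧ (∀ g ∈ w, g ∈ S ∨ g⁻¹ ∈ S) ∧
        (C : ℝ≥0∞) * (w.length : ℝ≥0∞) ^ 2 < mixedDegree w.prod y n 1) → CodimTwo y n Δ := by
  have key : 1 < n → NumDimLt y n Δ (n - 1) → CodimTwo y n Δ := by
    intro h1 h2
    refine ⟨h1, h2, ?_, fun h => ⟨n - 2, h, ?_⟩⟩
    · rintro ⟨m, hm, ω, E, hω, h0, hind⟩
      exact kappa_lt hy hn (Nat.sub_le _ _) h2 hm hω h0 hind
    · rwa [show n - 2 + 1 = n - 1 by omega]
  constructor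
  · intro ρ c hc G hG
    have hG' : ∀ g ∈ G, PseudoAut g y ∧ PullLe g y n Δ := by
      rcases hG with ⟨hT, hnef, hP⟩ | h
      · have hP' : ∀ g ∈ G, PullLe g y n Δ := by
          rcases hP with rfl | h
          · exact fun g _ => pullLe_terminal hy hn hT g
          · exact h
        exact fun g hg => ⟨pseudo_of_terminal hy hn hΔ.1 hT hnef (hP' g hg)
          (hP' g⁻¹ (G.inv_mem hg)), hP' g hg⟩
      · exact h
    rcases mw_K hy hn hn0 hc hΔ.2 G (fun g hg => (hG' g hg).1) (fun g hg => (hG' g hg).2) with
      ⟨h1, h2⟩ | h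
    · exact Or.inl (key h1 h2)
    · exact Or.inr h
  · intro S D hD hP hgrow
    have hP' : ∀ g ∈ Subgroup.closure S, PullLe g y n Δ := by
      rcases hP with h | ⟨rfl, hcan⟩
      · exact h
      · exact fun g _ => pullLe_canonical hy hn hcan g
    obtain ⟨h1, h2⟩ := Run7.h913.QG.quad_main hy hn hn0 hΔ.2 hD hP' hgrow
    exact key h1 h2

end Pool.Agent.Results.MP_5ff3c6_ag.MordellWeilStructure
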