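import Pool.Agent.Run7.h913.QG.Main
import Pool.Agent.N110.RK.Stat
import Pool.Agent.N110.Can
import Pool.Agent.R887.Exc

/-!
Groups of birational self-maps which preserve `K_X + Δ`, whose degrees grow faster than the square
of the word length: the numerical dimension is at most `n - 2`, and abundance.
-/

set_option autoImplicit false

open FF Pool.Agent.W602.GT Pool.Agent.Y172 Pool.Agent.R887 Pool.Agent.N110
open scoped ENNReal

/-- Let `X` be a normal projective variety of dimension `n ≥ 1`, with generic point `y`, and `Δ ≥ 0`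
a `ℚ`-divisor on `X` (klt, log canonical or not). Let `S` be a set of birational self-maps of `X`,
given by automorphisms of the function field, with degrees `g^* H · H ^ (n - 1)` at most `D` (for
instance a finite set, or one map), and `G` the group which they generate; it need not be
commutative. Suppose that the elements of `G` preserve `K_X + Δ` (over the prime divisors of `X` the
divisor `g^* (K_X + Δ)` is at most `K_X + Δ`), or that `Δ = 0` and `X` has canonical singularities (no
condition on the maps then; this is the case of the minimal varieties). Suppose that the degrees grow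
faster than quadratically in the word length: for every `C` there is a product of `l ≥ 1` elements of
`S` and inverses of elements of `S` with degree greater than `C l ^ 2`. For one map `f` this means
that the numbers `(f ^ l)^* H · H ^ (n - 1) / l ^ 2`, for `l` in `ℤ`, are unbounded; `f` may have zero
entropy. Then `n ≥ 2`, the numerical dimension of `K_X + Δ` is at most `n - 2`, and so is the Kodaira
dimension. If the Kodaira dimension is at least `n - 2` then the Kodaira dimension and the numerical
dimension of `K_X + Δ` are equal. -/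
theorem Pool.Agent.Results.MP_5ff3c6_ag.QuadraticDegreeGrowth.result
    {K : Type} [Field K] [Algebra ℂ K] {N n : ℕ} {y : Fin (N + 1) → K} (hy : NormalModel y)
    (hn : Algebra.trdeg ℂ K = n) (hn0 : 0 < n) {Δ : Place ℂ K → ℚ} (hΔ : Effective y Δ)
    {S : Set (K ≃ₐ[ℂ] K)} {D : ℕ} (hD : ∀ g ∈ S, mixedDegree g y n 1 ≤ D)
    (hP : (∀ g ∈ Subgroup.closure S, PullLe g y n Δ) ∨ (Δ = 0 ∧ Canonical y n))
    (hgrow : ∀ C : ℕ, ∃ w : List (K ≃ₐ[ℂ] K), w ≠ [] ∧ (∀ g ∈ w, g ∈ S ∨ g⁻¹ ∈ S) ∧
      (C : ℝ≥0∞) * (w.length : ℝ≥0∞) ^ 2 < mixedDegree w.prod y n 1) :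
    1 < n ∧ NumDimLt y n Δ (n - 1) ∧ ¬ KappaGe y n Δ (n - 1) ∧
      (KappaGe y n Δ (n - 2) → Abundant y n Δ) := by
  have hP' : ∀ g ∈ Subgroup.closure S, PullLe g y n Δ := by
    rcases hP with h | ⟨rfl, hcan⟩
    · exact h
    · exact fun g _ => pullLe_canonical hy hn hcan g
  obtain ⟨h1, h2⟩ := Run7.h913.QG.quad_main hy hn hn0 hΔ.2 hD hP' hgrow
  refine ⟨h1, h2, ?_, fun h => ⟨n - 2, h, ?_⟩⟩
  · rintro ⟨m, hm, ω, E, hω, h0, hind⟩
    exact kappa_lt hy hn (Nat.sub_le _ _) h2 hm hω h0 hind
  · rwa [show n - 2 + 1 = n - 1 by omega]
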